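import Pool.Agent.X119.BP.Stm

/-!
# Part FIN of project BP
-/

namespace Pool.Agent.X46.BP

open Pool.Agent.X119.BP

/-- fast version of the sum of powers of binomial coefficients -/
def Sf (r e : ℕ) : ℕ → ℕ
  | 0 => 0
  | (h + 1) => Sf r e h + (h.descFactorial r / r.factorial) ^ e

theorem S_eq (r e n : ℕ) : S r e n = Sf r e n := by
  induction n with
  | zero => simp [S, Sf]
  | succ n ih =>
    rw [Sf, ← ih, ← Nat.choose_eq_descFactorial_div_factorial]
    simp [S, Finset.sum_range_succ]

theorem C9 : ∀ e ∈ [9, 11, 13, 15, 17], 3 ^ 4 ∣ C 9 e := by decide +kernel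

theorem C25 : ∀ e ∈ [25, 27, 29], 5 ^ 6 ∣ C 25 e := by decide +kernel

theorem A9 : ∀ e ∈ [9, 11, 13, 15, 17], ∀ k ∈ List.range 6, 27 * k ≤ 9 * e →
    3 ^ 6 ∣ C 9 e * Sf 9 e (27 * k) := by decide +kernel

theorem B9 : ∀ e ∈ [9, 11, 13, 15, 17], 3 ^ 8 ∣ C 9 e * Sf 9 e 81 := by decide +kernel

theorem B25 : ∀ e ∈ [25, 27, 29], 5 ^ 8 ∣ C 25 e * Sf 25 e 625 := by decide +kernel

theorem t_FIN : S_FIN := by
  refine ⟨?_, ?_⟩
  · intro e n ho h1 h2 h3 h4
    have he : e ∈ [9, 11, 13, 15, 17] := by
      obtain ⟨k, rfl⟩ := ho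
      simp only [List.mem_cons, List.not_mem_nil, or_false]
      omega
    have hd : 3 ^ padicValNat 3 n ∣ n := pow_padicValNat_dvd
    have hle : 3 ^ padicValNat 3 n ≤ n := Nat.le_of_dvd (by omega) hd
    generalize padicValNat 3 n = v at hd hle ⊢
    have hv : v < 5 := by
      by_contra hc
      have : 3 ^ 5 ≤ 3 ^ v := Nat.pow_le_pow_right (by norm_num) (by omega)
      have h5 : e < 18 := h2
      norm_num at this
      omega
    have h5 : v ≤ 2 ∨ v = 3 ∨ v = 4 := by omega
    rcases h5 with h5 | rfl | rfl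
    · exact Dvd.dvd.mul_right ((pow_dvd_pow 3 (by omega : 2 * v ≤ 4)).trans (C9 e he)) _
    · obtain ⟨k, rfl⟩ := hd
      have hk : k ∈ List.range 6 := by
        rw [List.mem_range]
        norm_num at h4
        omega
      have := A9 e he k hk (by norm_num at h4; omega)
      rw [S_eq]
      norm_num at this ⊢
      exact this
    · obtain ⟨k, rfl⟩ := hd
      have hk : k = 1 := by
        norm_num at h4 h3
        omega
      subst hk
      have := B9 e he
      rw [S_eq]
      norm_num at this ⊢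
      exact this
  · intro e n ho h1 h2 h3 h4
    have he : e ∈ [25, 27, 29] := by
      obtain ⟨k, rfl⟩ := ho
      simp only [List.mem_cons, List.not_mem_nil, or_false]
      omega
    have hd : 5 ^ padicValNat 5 n ∣ n := pow_padicValNat_dvd
    have hle : 5 ^ padicValNat 5 n ≤ n := Nat.le_of_dvd (by omega) hd
    generalize padicValNat 5 n = v at hd hle ⊢
    have hv : v < 5 := by
      by_contra hc
      have : 5 ^ 5 ≤ 5 ^ v := Nat.pow_le_pow_right (by norm_num) (by omega)
      norm_num at this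
      omega
    have h5 : v ≤ 3 ∨ v = 4 := by omega
    rcases h5 with h5 | rfl
    · exact Dvd.dvd.mul_right ((pow_dvd_pow 5 (by omega : 2 * v ≤ 6)).trans (C25 e he)) _
    · obtain ⟨k, rfl⟩ := hd
      have hk : k = 1 := by
        norm_num at h4 h3
        omega
      subst hk
      have := B25 e he
      rw [S_eq]
      norm_num at this ⊢
      exact this

end Pool.Agent.X46.BP
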